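import Mathlib

namespace Pool.Agent.H.MP_770ffc_an

open MeasureTheory hiding integral_const_mul integral_const integral_add integral_sub
  integral_indicator
open Set Real Metric intervalIntegral

def D (H : ℝ → ℝ) : Set ℂ := {z | |z.im| < H |z.re|}

noncomputable def pt (H : ℝ → ℝ) (σ x s : ℝ) : ℂ := (σ * x : ℝ) + (s * H x : ℝ) * Complex.I

noncomputable def J (H : ℝ → ℝ) (σ : ℝ) (F : ℂ → ℝ) : ℝ :=
  ∫ x in (0 : ℝ)..1, H x * ∫ s in (-1 : ℝ)..1, F (pt H σ x s)

variable {H : ℝ → ℝ}

theorem opn (hc : Continuous H) : IsOpen (D H) := isOpen_lt (by fun_prop) (by fun_prop)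

theorem re_lt (ha : Antitone H) (h1 : H 1 = 0) {z : ℂ} (hz : z ∈ D H) : |z.re| < 1 :=
  not_le.1 fun h => absurd ((abs_nonneg _).trans_lt hz) (not_lt.2 (h1 ▸ ha h))

theorem sub_ball (ha : Antitone H) (h1 : H 1 = 0) : D H ⊆ closedBall 0 (1 + H 0) := fun z hz =>
  mem_closedBall_zero_iff.2 ((Complex.norm_le_abs_re_add_abs_im z).trans (add_le_add
    (re_lt ha h1 hz).le (hz.le.trans (ha (abs_nonneg _)))))

theorem ion (ha : Antitone H) (h1 : H 1 = 0) {F : ℂ → ℝ} (hF : Continuous F) :
    IntegrableOn F (D H) :=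
  (hF.continuousOn.integrableOn_compact (isCompact_closedBall _ _)).mono_set (sub_ball ha h1)

theorem cov (hc : Continuous H) (ha : Antitone H) (h1 : H 1 = 0) {F : ℂ → ℝ}
    (hF : Continuous F) : ∫ z in D H, F z = J H 1 F + J H (-1) F := by
  have hm := (opn hc).measurableSet
  have mp := Complex.volume_preserving_equiv_real_prod.symm
  have hi := (mp.integrable_comp_emb (MeasurableEquiv.measurableEmbedding _)).2
    ((integrable_indicator_iff hm).2 (ion ha h1 hF))
  obtain ⟨k, hk⟩ : ∃ k : ℝ → ℝ, k = fun x => H |x| * ∫ s in (-1 : ℝ)..1,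
    F (x + (s * H |x| : ℝ) * Complex.I) := ⟨_, rfl⟩
  have ck : Continuous k := by rw [hk]; fun_prop
  have e : ∀ x, ∫ y, (D H).indicator F (Complex.measurableEquivRealProd.symm (x, y)) =
      ∫ y in Ioo (-H |x|) (H |x|), F (x + y * Complex.I) := fun x => by
    rw [← MeasureTheory.integral_indicator measurableSet_Ioo]
    refine integral_congr_ae (.of_forall fun y => ?_)
    simp only [Complex.measurableEquivRealProd_symm_apply, indicator, D, mem_ofPred_eq, abs_lt,
      mem_Ioo, Complex.mk_eq_add_mul_I, Complex.add_im, Complex.add_re]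
    simp
  rw [← MeasureTheory.integral_indicator hm, ← mp.integral_comp']
  refine (integral_prod _ hi).trans ?_
  simp only [Function.comp, e]
  rw [← setIntegral_eq_integral_of_forall_compl_eq_zero (s := Ioo (-1) 1) fun x hx => by
    have : H |x| ≤ 0 := h1 ▸ ha (not_lt.1 fun h => hx (abs_lt.1 h))
    rw [Ioo_eq_empty (by linarith), setIntegral_empty], setIntegral_congr_fun (g := k)
    measurableSet_Ioo fun x hx => by
      have : 0 ≤ H |x| := h1 ▸ ha (abs_lt.2 hx).le
      simp only [hk]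
      rw [mul_integral_comp_mul_right (f := fun y : ℝ => F (x + y * Complex.I)), one_mul, neg_one_mul,
        integral_of_le (by linarith), integral_Ioc_eq_integral_Ioo],
    ← integral_Ioc_eq_integral_Ioo, ← integral_of_le (by norm_num),
    ← integral_add_adjacent_intervals (b := 0) (ck.intervalIntegrable _ _)
      (ck.intervalIntegrable _ _), add_comm]
  have := integral_comp_neg (a := 0) (b := 1) k
  rw [neg_zero] at this
  rw [← this]
  congr 1 <;> refine integral_congr fun x hx => ?_ <;> rw [uIcc_of_le zero_le_one] at hx <;>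
    simp [hk, pt, abs_of_nonneg hx.1]

theorem osc {f f' g : ℝ → ℝ} (hf : ∀ s, HasDerivAt f (f' s) s) (hf' : Continuous f')
    (hg : Continuous g) (h : ∀ s, |f' s| ≤ g s) {s t : ℝ} (hs : s ∈ Icc (-1 : ℝ) 1)
    (ht : t ∈ Icc (-1 : ℝ) 1) : (f s - f t) ^ 2 ≤ 2 * ∫ r in (-1 : ℝ)..1, g r ^ 2 := by
  wlog hst : t ≤ s generalizing s t
  · rw [sub_sq_comm]; exact this ht hs (not_le.1 hst).le
  have h1 : |f s - f t| ≤ ∫ r in (-1 : ℝ)..1, g r := by
    rw [← integral_eq_sub_of_hasDerivAt (fun x _ => hf x) (hf'.intervalIntegrable _ _)]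
    exact (norm_integral_le_of_norm_le (f := f') hst (.of_forall fun x _ => h x)
      (hg.intervalIntegrable _ _)).trans (integral_mono_interval ht.1 hst hs.2
        (.of_forall fun x => (abs_nonneg _).trans (h x)) (hg.intervalIntegrable _ _))
  obtain ⟨c, hc⟩ : ∃ c, c = ∫ r in (-1 : ℝ)..1, g r := ⟨_, rfl⟩
  have h2 : ∫ r in (-1 : ℝ)..1, (c * g r - c ^ 2 / 4) ≤ ∫ r in (-1 : ℝ)..1, g r ^ 2 :=
    integral_mono_on (by norm_num) (Continuous.intervalIntegrable (by fun_prop) _ _)
      (Continuous.intervalIntegrable (by fun_prop) _ _) fun r _ => by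
        nlinarith [sq_nonneg (g r - c / 2)]
  rw [integral_sub (Continuous.intervalIntegrable (by fun_prop) _ _) intervalIntegrable_const,
    integral_const_mul, ← hc, integral_const, smul_eq_mul] at h2
  have h3 := pow_le_pow_left₀ (abs_nonneg _) h1 2
  rw [sq_abs, ← hc] at h3
  linarith

theorem hardy {f f' g H' : ℝ → ℝ} {a : ℝ} (ha : 0 < a) (hf : ∀ s, HasDerivAt f (f' s) s)
    (hf' : Continuous f') (hg : Continuous g) (h : ∀ s ∈ Icc (0 : ℝ) 1, |f' s| ≤ g s)
    (hH : ∀ s, HasDerivAt H (H' s) s) (hH' : Continuous H') (h0 : ∀ s ∈ Icc (0 : ℝ) 1, 0 ≤ H s)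
    (h1 : H 1 = 0) (h2 : ∀ s, H' s ≤ -a * H s) :
    ∫ x in (0 : ℝ)..1, H x * (f x - f 0) ^ 2 ≤ 4 / a ^ 2 * ∫ x in (0 : ℝ)..1, H x * g x ^ 2 := by
  have c1 : Continuous f := continuous_iff_continuousAt.2 fun s => (hf s).continuousAt
  have c2 : Continuous H := continuous_iff_continuousAt.2 fun s => (hH s).continuousAt
  have e := integral_eq_sub_of_hasDerivAt (a := 0) (b := 1) (fun x _ =>
    (hH x).mul (((hf x).sub_const (f 0)).pow 2)) (Continuous.intervalIntegrable (by fun_prop) _ _)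
  have h3 : ∫ x in (0 : ℝ)..1, (H' x * (f x - f 0) ^ 2 + H x * (2 * (f x - f 0) * f' x)) ≤
      ∫ x in (0 : ℝ)..1, (2 / a * (H x * g x ^ 2) - a / 2 * (H x * (f x - f 0) ^ 2)) :=
    integral_mono_on zero_le_one (Continuous.intervalIntegrable (by fun_prop) _ _)
      (Continuous.intervalIntegrable (by fun_prop) _ _) fun x hx => by
        have k1 := mul_le_mul_of_nonneg_right (h2 x) (sq_nonneg (f x - f 0))
        have k2 := pow_le_pow_left₀ (abs_nonneg _) (h x hx) 2
        rw [sq_abs] at k2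
        have k3 : 2 * (f x - f 0) * f' x ≤ 2 / a * g x ^ 2 + a / 2 * (f x - f 0) ^ 2 := by
          have : 2 / a * (f' x - a / 2 * (f x - f 0)) ^ 2 = 2 / a * f' x ^ 2 + a / 2 *
            (f x - f 0) ^ 2 - 2 * (f x - f 0) * f' x := by field_simp; ring
          have k4 : 0 ≤ 2 / a * (f' x - a / 2 * (f x - f 0)) ^ 2 := by positivity
          have k5 := mul_le_mul_of_nonneg_left k2 (show 0 ≤ 2 / a by positivity)
          linarith
        nlinarith [mul_le_mul_of_nonneg_left k3 (h0 x hx)]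
  have e2 : ∫ x in (0 : ℝ)..1, (H' x * (f x - f 0) ^ 2 + H x * (2 * (f x - f 0) * f' x)) = 0 := by
    simpa [h1] using e
  rw [e2, integral_sub (Continuous.intervalIntegrable (by fun_prop) _ _)
    (Continuous.intervalIntegrable (by fun_prop) _ _), integral_const_mul, integral_const_mul,
    sub_nonneg, ← le_div_iff₀' (by positivity)] at h3
  refine h3.trans (le_of_eq ?_)
  field_simp
  ring

noncomputable def H2 (a t : ℝ) : ℝ := a⁻¹ * (exp (-a * t) - exp (-a))

theorem H2d (a t : ℝ) (ha : 0 < a) : HasDerivAt (H2 a) (-exp (-a * t)) t :=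
  ((((hasDerivAt_id t).const_mul (-a)).exp.sub_const _).const_mul a⁻¹).congr_deriv (by
    simp only [id]; field_simp)

theorem H2a {a : ℝ} (ha : 0 < a) : Antitone (H2 a) := antitone_of_hasDerivAt_nonpos
  (fun t => H2d a t ha) fun _ => neg_nonpos.2 (exp_pos _).le

theorem H21 (a : ℝ) : H2 a 1 = 0 := by simp [H2]

theorem H2c (a : ℝ) : Continuous (H2 a) := by unfold H2; fun_prop

theorem half {a : ℝ} (ha : 0 < a) {u : ℂ → ℝ} (hu : ContDiff ℝ 1 u) {σ : ℝ} (hσ : |σ| = 1) :
    ∫ t in (-1 : ℝ)..1, J (H2 a) σ (fun z => (u z - u (pt (H2 a) 1 0 t)) ^ 2) ≤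
      80 / a ^ 2 * J (H2 a) σ fun z => ‖fderiv ℝ u z‖ ^ 2 := by
  have c0 := H2c a
  have c1 := hu.continuous
  have c2 := hu.continuous_fderiv one_ne_zero
  have d1 := fun z => (hu.differentiable one_ne_zero z).hasFDerivAt
  have p0 : ∀ x ∈ Icc (0 : ℝ) 1, 0 ≤ H2 a x := fun x hx => H21 a ▸ H2a ha hx.2
  have p1 : ∀ x ∈ Icc (0 : ℝ) 1, exp (-a * x) ≤ 1 := fun x hx =>
    exp_le_one_iff.2 (by nlinarith [hx.1])
  have h1 : ∀ t ∈ Icc (-1 : ℝ) 1, J (H2 a) σ (fun z => (u z - u (pt (H2 a) 1 0 t)) ^ 2) ≤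
      8 / a ^ 2 * J (H2 a) σ (fun z => ‖fderiv ℝ u z‖ ^ 2) +
      64 / a ^ 2 * ∫ x in (0 : ℝ)..1, H2 a x * ‖fderiv ℝ u (pt (H2 a) σ x t)‖ ^ 2 := by
    intro t ht
    have k1 := hardy ha (f := fun x => u (pt (H2 a) σ x t))
      (g := fun x => 2 * ‖fderiv ℝ u (pt (H2 a) σ x t)‖) (fun x => (d1 _).comp_hasDerivAt x
        ((((hasDerivAt_id x).const_mul σ).ofReal_comp).add
          (((H2d a x ha).const_mul t).ofReal_comp.mul_const Complex.I)))
      (by unfold pt; fun_prop) (by unfold pt; fun_prop) (fun x hx => by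
        refine ((fderiv ℝ u _).le_opNorm _).trans ?_
        rw [mul_comm]
        refine mul_le_mul_of_nonneg_right ((norm_add_le _ _).trans ?_) (norm_nonneg _)
        have := mul_le_mul (abs_le.2 ht) (p1 x hx) (exp_pos _).le zero_le_one
        simp only [Complex.norm_real, norm_mul, Complex.norm_I, Real.norm_eq_abs, mul_one, hσ,
          abs_neg, abs_one, abs_exp]
        linarith) (fun x => H2d a x ha) (by fun_prop) p0 (H21 a) fun x => by
          rw [H2, ← mul_assoc, neg_mul a a⁻¹, mul_inv_cancel₀ ha.ne']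
          linarith [exp_pos (-a)]
    simp only [mul_pow, mul_left_comm (H2 a _), integral_const_mul] at k1
    have k2 : J (H2 a) σ (fun z => (u z - u (pt (H2 a) 1 0 t)) ^ 2) ≤ ∫ x in (0 : ℝ)..1,
        (8 / a ^ 2 * (H2 a x * ∫ s in (-1 : ℝ)..1, ‖fderiv ℝ u (pt (H2 a) σ x s)‖ ^ 2) +
          4 * (H2 a x * (u (pt (H2 a) σ x t) - u (pt (H2 a) σ 0 t)) ^ 2)) := by
      refine integral_mono_on zero_le_one (Continuous.intervalIntegrable (by unfold pt; fun_prop)
        _ _) (Continuous.intervalIntegrable (by unfold pt; fun_prop) _ _) fun x hx => ?_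
      rw [mul_left_comm, mul_left_comm 4, ← mul_add]
      refine mul_le_mul_of_nonneg_left ((integral_mono_on (g := fun _ => 4 / a ^ 2 *
        (∫ s in (-1 : ℝ)..1, ‖fderiv ℝ u (pt (H2 a) σ x s)‖ ^ 2) + 2 * (u (pt (H2 a) σ x t) -
        u (pt (H2 a) σ 0 t)) ^ 2) (by norm_num) (Continuous.intervalIntegrable
        (by unfold pt; fun_prop) _ _) intervalIntegrable_const fun s hs => ?_).trans (le_of_eq ?_))
        (p0 x hx)
      · have k3 := osc (f := fun s => u (pt (H2 a) σ x s))
          (g := fun s => a⁻¹ * ‖fderiv ℝ u (pt (H2 a) σ x s)‖) (fun s => (d1 _).comp_hasDerivAt s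
            ((((hasDerivAt_id s).mul_const (H2 a x)).ofReal_comp.mul_const Complex.I).const_add _))
          (by unfold pt; fun_prop) (by unfold pt; fun_prop) (fun s => by
            refine ((fderiv ℝ u _).le_opNorm _).trans ?_
            rw [mul_comm]
            refine mul_le_mul_of_nonneg_right ?_ (norm_nonneg _)
            simp only [Complex.norm_real, norm_mul, Complex.norm_I, Real.norm_eq_abs, mul_one,
              abs_one, one_mul, abs_of_nonneg (p0 x hx)]
            exact mul_le_of_le_one_right (by positivity) (by linarith [p1 x hx, exp_pos (-a)])) hs ht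
        simp only [mul_pow, integral_const_mul] at k3
        rw [show pt (H2 a) 1 0 t = pt (H2 a) σ 0 t by simp [pt], div_eq_mul_inv, ← inv_pow]
        nlinarith [sq_nonneg (u (pt (H2 a) σ x s) - 2 * u (pt (H2 a) σ x t) +
          u (pt (H2 a) σ 0 t))]
      · rw [integral_const, smul_eq_mul]; ring
    rw [integral_add (Continuous.intervalIntegrable (by unfold pt; fun_prop) _ _)
      (Continuous.intervalIntegrable (by unfold pt; fun_prop) _ _), integral_const_mul,
      integral_const_mul] at k2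
    refine k2.trans (add_le_add le_rfl ((mul_le_mul_of_nonneg_left k1 (by norm_num)).trans
      (le_of_eq (by ring))))
  refine (integral_mono_on (by norm_num) (Continuous.intervalIntegrable
    (by unfold J pt; fun_prop) _ _) (Continuous.intervalIntegrable (by unfold pt; fun_prop) _ _)
    h1).trans (le_of_eq ?_)
  rw [integral_add intervalIntegrable_const (Continuous.intervalIntegrable
    (by unfold pt; fun_prop) _ _), integral_const, integral_const_mul,
    intervalIntegral_intervalIntegral_swap ((Continuous.continuousOn (by unfold pt; fun_prop)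
      ).integrableOn_compact (isCompact_uIcc.prod isCompact_uIcc) |>.mono_set
      (prod_mono uIoc_subset_uIcc uIoc_subset_uIcc))]
  simp only [integral_const_mul, J, smul_eq_mul]
  ring

theorem poinc {a : ℝ} (ha : 0 < a) {u : ℂ → ℝ} (hu : ContDiff ℝ 1 u)
    (h0 : ∫ z in D (H2 a), u z = 0) :
    ∫ z in D (H2 a), u z ^ 2 ≤ 40 / a ^ 2 * ∫ z in D (H2 a), ‖fderiv ℝ u z‖ ^ 2 := by
  have c0 := H2c a
  have c1 := hu.continuous
  have c2 := hu.continuous_fderiv one_ne_zero
  have io : ∀ {F : ℂ → ℝ}, Continuous F → _ := ion (H2a ha) (H21 a)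
  have h1 : ∀ c : ℝ, ∫ z in D (H2 a), u z ^ 2 ≤ J (H2 a) 1 (fun z => (u z - c) ^ 2) +
      J (H2 a) (-1) fun z => (u z - c) ^ 2 := fun c => by
    rw [← cov c0 (H2a ha) (H21 a) (by fun_prop)]
    refine le_trans (le_of_eq ?_) (setIntegral_mono (f := fun z => u z ^ 2 - 2 * c * u z)
      (io (by fun_prop)) (io (by fun_prop)) fun z => by nlinarith [sq_nonneg c])
    rw [MeasureTheory.integral_sub (io (by fun_prop)) (io (by fun_prop)),
      MeasureTheory.integral_const_mul, h0, mul_zero, sub_zero]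
  have h2 := integral_mono_on (a := -1) (b := 1) (μ := volume) (by norm_num)
    intervalIntegrable_const (Continuous.intervalIntegrable (by unfold J pt; fun_prop) _ _)
    fun t _ => h1 (u (pt (H2 a) 1 0 t))
  rw [integral_add (Continuous.intervalIntegrable (by unfold J pt; fun_prop) _ _)
    (Continuous.intervalIntegrable (by unfold J pt; fun_prop) _ _), integral_const,
    smul_eq_mul] at h2
  rw [cov c0 (H2a ha) (H21 a) (F := fun z => ‖fderiv ℝ u z‖ ^ 2) (by fun_prop)]
  have h3 := half ha hu abs_one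
  have h4 := half ha hu (σ := -1) (by simp)
  rw [show 80 / a ^ 2 = 2 * (40 / a ^ 2) by ring] at h3 h4
  linarith

end Pool.Agent.H.MP_770ffc_an
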