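import Pool.Agent.H.MP_770ffc_an.A

namespace Pool.Agent.H.MP_770ffc_an

open MeasureTheory Set Real Metric

def LipDomain (Ω : Set ℂ) : Prop :=
  IsOpen Ω ∧ IsConnected Ω ∧ Bornology.IsBounded Ω ∧
    ∀ p ∈ frontier Ω, ∃ w : ℂ, ‖w‖ = 1 ∧ ∃ r : ℝ, 0 < r ∧ ∃ (K : NNReal) (g : ℝ → ℝ),
      LipschitzWith K g ∧ ∀ x ∈ ball p r, (x ∈ Ω ↔ (w * x).im < g (w * x).re)

noncomputable def mu1 (Ω : Set ℂ) : ℝ :=
  sInf {t | ∃ u : ℂ → ℝ, ContDiff ℝ 1 u ∧ ∫ z in Ω, u z = 0 ∧ 0 < ∫ z in Ω, u z ^ 2 ∧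
    t = (∫ z in Ω, ‖fderiv ℝ u z‖ ^ 2) / ∫ z in Ω, u z ^ 2}

theorem lipAbs {f f' : ℝ → ℝ} (hd : ∀ t, 0 ≤ t → HasDerivAt f (f' t) t) {C : ℝ}
    (h : ∀ t, 0 ≤ t → |f' t| ≤ C) : ∃ K, LipschitzWith K fun x => f |x| := by
  have h1 := (convex_Ici (0 : ℝ)).lipschitzOnWith_of_nnnorm_hasDerivWithin_le (C := C.toNNReal)
    (fun t ht => (hd t ht).hasDerivWithinAt) fun t ht => by
      rw [← NNReal.coe_le_coe]; exact (h t ht).trans (le_coe_toNNReal _)
  exact ⟨_, lipschitzOnWith_univ.1 (h1.comp (lipschitzWith_one_norm (E := ℝ)).lipschitzOnWith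
    fun x _ => abs_nonneg x)⟩

theorem sgn {p x r : ℝ} (h : |x - p| < r) : (p = r → |x| = x) ∧ (-p = r → |x| = -x) := by
  rw [abs_lt] at h
  exact ⟨fun e => abs_of_pos (by linarith), fun e => abs_of_neg (by linarith)⟩

theorem lip {H G : ℝ → ℝ} (hc : Continuous H) (ha : Antitone H) (h1 : H 1 = 0) (h0 : 0 < H 0)
    (l1 : ∃ K, LipschitzWith K fun x => H |x|) (l2 : ∃ K, LipschitzWith K fun x => G |x|)
    (e : ∀ x y, 0 ≤ y → (y < H x ↔ x < G y)) : LipDomain (D H) := by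
  have m0 : (0 : ℂ) ∈ D H := by simpa [D] using h0
  refine ⟨opn hc, (StarConvex.isPathConnected (fun z hz s t _ ht hst => ?_) m0).isConnected,
    isBounded_closedBall.subset (sub_ball ha h1), fun p hp => ?_⟩
  · have t1 : t ≤ 1 := by linarith
    simp only [D, mem_ofPred_eq, smul_zero, zero_add, Complex.smul_im, Complex.smul_re,
      smul_eq_mul, abs_mul, abs_of_nonneg ht]
    exact (mul_le_of_le_one_left (abs_nonneg _) t1).trans_lt (hz.trans_le
      (ha (mul_le_of_le_one_left (abs_nonneg _) t1)))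
  obtain ⟨K1, l1⟩ := l1
  obtain ⟨K2, l2⟩ := l2
  have i1 : ∀ {x r}, x ∈ ball p r → |x.im - p.im| < r := fun h =>
    (Complex.abs_im_le_norm (_ - p)).trans_lt (mem_ball_iff_norm.1 h)
  have i2 : ∀ {x r}, x ∈ ball p r → |x.re - p.re| < r := fun h =>
    (Complex.abs_re_le_norm (_ - p)).trans_lt (mem_ball_iff_norm.1 h)
  rcases lt_trichotomy p.im 0 with h | h | h
  · exact ⟨-1, by simp, -p.im, by linarith, K1, _, l1, fun x hx => by
      simp [D, (sgn (i1 hx)).2 rfl]⟩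
  · rcases lt_trichotomy p.re 0 with k | k | k
    · exact ⟨-Complex.I, by simp, -p.re, by linarith, K2, _, l2, fun x hx => by
        simp [D, (sgn (i2 hx)).2 rfl, e _ _ (abs_nonneg _)]⟩
    · rw [(opn hc).frontier_eq, show p = 0 from Complex.ext k h] at hp
      exact absurd m0 hp.2
    · exact ⟨Complex.I, by simp, p.re, k, K2, _, l2, fun x hx => by
        simp [D, (sgn (i2 hx)).1 rfl, e _ _ (abs_nonneg _)]⟩
  · exact ⟨1, by simp, p.im, h, K1, _, l1, fun x hx => by simp [D, (sgn (i1 hx)).1 rfl]⟩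

theorem test {H : ℝ → ℝ} (hc : Continuous H) (ha : Antitone H) (h1 : H 1 = 0) :
    ∫ z in D H, z.re = 0 ∧ ∫ z in D H, z.re ^ 2 = 4 * ∫ x in (0 : ℝ)..1, H x * x ^ 2 ∧
      ∫ z in D H, ‖fderiv ℝ Complex.re z‖ ^ 2 = 4 * ∫ x in (0 : ℝ)..1, H x := by
  have e : ∀ z, ‖fderiv ℝ Complex.re z‖ = 1 := fun z => by
    rw [show Complex.re = Complex.reCLM from rfl, ContinuousLinearMap.fderiv, Complex.reCLM_norm]
  simp only [e]
  rw [cov hc ha h1 (by fun_prop), cov hc ha h1 (by fun_prop), cov hc ha h1 (by fun_prop)]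
  simp only [J, pt, Complex.add_re, Complex.ofReal_re, Complex.mul_I_re, Complex.ofReal_im,
    neg_zero, add_zero, one_mul, neg_mul, neg_sq, intervalIntegral.integral_const, smul_eq_mul,
    mul_neg, intervalIntegral.integral_neg, mul_left_comm (H _),
    intervalIntegral.integral_const_mul, one_pow, mul_one, intervalIntegral.integral_mul_const]
  refine ⟨?_, ?_, ?_⟩ <;> ring

theorem main (ε : ℝ) (hε : 0 < ε) : ∃ Ω₁ Ω₂ : Set ℂ, LipDomain Ω₁ ∧ LipDomain Ω₂ ∧ Ω₁ ⊆ Ω₂ ∧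
    Convex ℝ Ω₁ ∧ 0 < mu1 Ω₂ ∧ mu1 Ω₁ / mu1 Ω₂ < ε := by
  obtain ⟨a, ha⟩ : ∃ a, a = 240 / ε + 1 := ⟨_, rfl⟩
  have a1 : 1 < a := by rw [ha]; linarith [show 0 < 240 / ε by positivity]
  have a0 : 0 < a := by linarith
  obtain ⟨η, hη⟩ : ∃ η, η = exp (-a) := ⟨_, rfl⟩
  have η0 : 0 < η := hη ▸ exp_pos _
  obtain ⟨H1, hH⟩ : ∃ H1 : ℝ → ℝ, H1 = fun t => η * (1 - t) := ⟨_, rfl⟩
  have c1 : Continuous H1 := by rw [hH]; fun_prop
  have m1 : Antitone H1 := fun s t h => by rw [hH]; simp only; gcongr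
  have o1 : H1 1 = 0 := by simp [hH]
  have le : ∀ t, H1 t ≤ H2 a t := fun t => by
    have := mul_le_mul_of_nonneg_left (add_one_le_exp (a * (1 - t))) η0.le
    rw [hη, ← exp_add, show -a + a * (1 - t) = -a * t by ring, ← hη] at this
    rw [hH, H2, ← hη, le_inv_mul_iff₀ a0]
    linarith
  have sub : D H1 ⊆ D (H2 a) := fun z hz => hz.trans_le (le _)
  obtain ⟨t1, t2, t3⟩ := test c1 m1 o1
  have q1 : ∫ x in (0 : ℝ)..1, H1 x * x ^ 2 = η / 12 := by
    simp only [hH, show ∀ x : ℝ, η * (1 - x) * x ^ 2 = η * (x ^ 2 - x ^ 3) from fun x => by ring]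
    rw [intervalIntegral.integral_const_mul, intervalIntegral.integral_sub
      (Continuous.intervalIntegrable (by fun_prop) _ _) (Continuous.intervalIntegrable
      (by fun_prop) _ _), integral_pow, integral_pow]
    ring
  have q2 : ∫ x in (0 : ℝ)..1, H1 x = η / 2 := by
    simp only [hH]
    rw [intervalIntegral.integral_const_mul, intervalIntegral.integral_sub
      intervalIntegrable_const (Continuous.intervalIntegrable (by fun_prop) _ _), integral_id]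
    simp; ring
  rw [q1] at t2
  rw [q2] at t3
  have cr : ContDiff ℝ 1 Complex.re := Complex.reCLM.contDiff
  have u1 : mu1 (D H1) ≤ 6 := csInf_le ⟨0, by
    rintro _ ⟨u, -, -, h, rfl⟩
    exact div_nonneg (integral_nonneg fun _ => sq_nonneg _) h.le⟩
    ⟨_, cr, t1, by rw [t2]; positivity, by rw [t2, t3]; field_simp; norm_num⟩
  have u2 : a ^ 2 / 40 ≤ mu1 (D (H2 a)) := le_csInf ⟨_, _, cr, (test (H2c a) (H2a a0) (H21 a)).1,
    lt_of_lt_of_le (by rw [t2]; positivity) (setIntegral_mono_set (ion (H2a a0) (H21 a)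
      (by fun_prop)) (.of_forall fun _ => sq_nonneg _) sub.eventuallyLE), rfl⟩ (by
      rintro _ ⟨u, h1, h2, h3, rfl⟩
      have := poinc a0 h1 h2
      rw [div_mul_eq_mul_div, le_div_iff₀ (by positivity)] at this
      rw [div_le_div_iff₀ (by norm_num) h3]
      linarith)
  have u3 : 0 < mu1 (D (H2 a)) := lt_of_lt_of_le (by positivity) u2
  refine ⟨D H1, D (H2 a), lip (G := fun y => 1 - η⁻¹ * y) c1 m1 o1 (by simpa [hH] using η0)
    (hH ▸ lipAbs (C := |η * -1|) (fun t _ => ((hasDerivAt_id t).const_sub 1).const_mul η)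
      fun _ _ => le_rfl)
    (lipAbs (C := |-(η⁻¹ * 1)|) (fun t _ => ((hasDerivAt_id t).const_mul η⁻¹).const_sub 1)
      fun _ _ => le_rfl) fun x y _ => ?_, lip (G := fun y => -a⁻¹ * log (a * y + η)) (H2c a)
    (H2a a0) (H21 a) (lt_of_lt_of_le (by simpa [hH] using η0) (le 0))
    (lipAbs (C := 1) (fun t _ => H2d a t a0) fun t ht => by
      rw [abs_neg, abs_exp]; exact exp_le_one_iff.2 (by nlinarith))
    (lipAbs (C := η⁻¹) (fun t ht => ((((hasDerivAt_id t).const_mul a).add_const η).log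
      (by simp only [id]; positivity)).const_mul (-a⁻¹)) fun t ht => ?_) fun x y hy => ?_, sub,
    fun z hz w hw s t hs ht hst => ?_, u3, ?_⟩
  · rw [hH, lt_sub_comm, inv_mul_lt_iff₀ η0]
  · simp only [id, mul_one]
    rw [neg_mul, abs_neg, ← mul_div_assoc, inv_mul_cancel₀ a0.ne', abs_of_pos (by positivity),
      one_div]
    exact inv_anti₀ η0 (by nlinarith)
  · rw [H2, lt_inv_mul_iff₀ a0, ← hη, lt_sub_iff_add_lt, ← log_lt_iff_lt_exp (by positivity),
      neg_mul, neg_mul, lt_neg, ← mul_neg, lt_inv_mul_iff₀ a0]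
  · simp only [D, mem_ofPred_eq, hH] at hz hw ⊢
    have k1 := abs_add_le (s * z.im) (t * w.im)
    have k2 := abs_add_le (s * z.re) (t * w.re)
    simp only [abs_mul, abs_of_nonneg hs, abs_of_nonneg ht] at k1 k2
    simp only [Complex.add_im, Complex.add_re, Complex.smul_im, Complex.smul_re, smul_eq_mul]
    have k3 := (convex_Iio (𝕜 := ℝ) (0 : ℝ)) (sub_neg.2 hz) (sub_neg.2 hw) hs ht hst
    simp only [smul_eq_mul, mem_Iio] at k3
    have k4 := mul_le_mul_of_nonneg_left k2 η0.le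
    have k5 : η * s + η * t = η := by rw [← mul_add, hst, mul_one]
    linarith
  · rw [div_lt_iff₀ u3]
    have k1 : 240 < ε * a := by rw [ha, mul_add, mul_div_cancel₀ _ hε.ne']; linarith
    have k2 := mul_le_mul_of_nonneg_left u2 hε.le
    nlinarith

end Pool.Agent.H.MP_770ffc_an
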